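import Pool.Agent.Q202.Rec.CloneRep
import Pool.Agent.Q202.Rat.Nary

/-!
# MP_88d3f6_lc : automatic homeomorphicity of `Pol(ℚ; <)`

**Answer to Q1: yes.**  Every clone isomorphism from `Pol(ℚ; <)` onto a closed clone on a
countable set is a homeomorphism.

Idea of the proof. Let `ξ` be the isomorphism. (1) The stabilisers of the rationals in
`Aut(ℚ; <)` are closed in the second topology, because `{g | g x ≥ x}` and `{g | g x ≤ x}` are
given by commutation; so (Pettis) every point `d` of the second set has a finite support.
(2) `ξ` is continuous on the unary part: for every `p` the limit `q` of the automorphisms which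
converge to `p` commutes with everything that `p` commutes with; if the image of `p` is a section
of a monotone map with open fibres, then this gives `q = p`, and every `p` can be composed with
some `r` such that `r` and `p ∘ r` are of that kind. (3) If `t` and `s` agree on a suitable finite
set, there are self-embeddings `q₁`, `q₂` which fix a support of `d` pointwise and a self-embedding
`m` such that `m ∘ t ∘ q₁` and `m ∘ s ∘ q₂` are `H ∘ q₁` and `H ∘ q₂` for one polymorphism `H`;
so `ξ(t)(d) = ξ(s)(d)`. (4) The continuity of the inverse is a compactness argument for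
oligomorphic groups.
-/

set_option autoImplicit false

namespace Pool.Agent.Results.MP_88d3f6_lc.AutomaticHomeomorphicity

open Q202.Rec Topology

universe u

/-- The rationals with the discrete topology. -/
def Qd : Type := ℚ

instance : LinearOrder Qd := inferInstanceAs (LinearOrder ℚ)

instance : TopologicalSpace Qd := ⊥

instance : DiscreteTopology Qd := ⟨rfl⟩

instance : Countable Qd := inferInstanceAs (Countable ℚ)

instance : Nonempty Qd := inferInstanceAs (Nonempty ℚ)

/-- `Pol(ℚ; <)`: the operations `f` such that `a i < b i` for all `i` implies `f a < f b`. -/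
def PolQ : Clone Qd where
  ops n := {f : Op Qd n | ∀ a b : Fin (n + 1) → Qd, (∀ i, a i < b i) → f a < f b}
  proj_mem _ i := fun _ _ h => h i
  comp_mem _ _ hf hg := fun a b h => hf _ _ fun i => hg i a b h

theorem isClosed_PolQ : IsClosed PolQ.carrier := by
  refine Clone.isClosed_carrier fun n => ?_
  refine isClosed_of_finset fun f hf a b hab => ?_
  classical
  obtain ⟨g, hg, hgf⟩ := hf {a, b}
  rw [← hgf a (by simp), ← hgf b (by simp)]
  exact hg a b hab

/-- **MP_88d3f6_lc, Q1.** `Pol(ℚ; <)` is a closed clone, and every clone isomorphism from it onto a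
closed clone on a countable set is a homeomorphism. -/
theorem result : IsClosed PolQ.carrier ∧
    ∀ (Ω' : Type u) [TopologicalSpace Ω'] [DiscreteTopology Ω'] [Countable Ω'],
      AutoHomeo PolQ Ω' := by
  refine ⟨isClosed_PolQ, fun Ω' _ _ _ D hD ξ => ?_⟩
  refine ξ.isHomeomorph_of_continuous isClosed_PolQ hD
    (G := Q202.Rat.autQ) Q202.Rat.oligo_autQ (fun g hg a b h => hg (h 0)) fun n t d => ?_
  exact Q202.Rat.continuous_nary (PolQ.repn isClosed_PolQ) (ξ.repn hD)
    (fun f hf => ⟨⟨fun v => f (v 0), fun a b h => hf (h 0)⟩, fun x => rfl⟩)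
    (fun p x y hxy => p.2 _ _ fun _ => hxy) (PolQ.left n) (PolQ.right n)
    (fun t v => t.1 v) (fun t v => (ξ.map n t).1 v)
    (fun s t h => Subtype.ext (funext h)) (fun t v w h => t.2 v w h)
    (fun f hf => ⟨⟨f, hf⟩, fun v => rfl⟩)
    (fun p t v => rfl) (fun t p v => rfl)
    (fun p t v => ξ.map_left n p t v) (fun t p v => ξ.map_right n t p v) t d

end Pool.Agent.Results.MP_88d3f6_lc.AutomaticHomeomorphicity
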